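import Mathlib

noncomputable section

namespace Pool.Agent.MP_598c06_an

/-- Infinite subtrees of the Cayley graph of the free group that contain the identity. -/
def IsPointedTree (n : ℕ) (T : Set (FreeGroup (Fin n))) : Prop :=
  T.Infinite ∧ 1 ∈ T ∧
    ((SimpleGraph.mulCayley (Set.range (FreeGroup.of : Fin n → FreeGroup (Fin n)))).induce T).IsTree

/-- The transversal. -/
def X (n : ℕ) : Type := Subtype (IsPointedTree n)

/-- The topology generated by the balls of the metric on pointed trees. -/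
instance instTopX (n : ℕ) : TopologicalSpace (X n) :=
  TopologicalSpace.generateFrom
    {U | ∃ (T : X n) (r : ℕ), U = {T' : X n | ∀ g, FreeGroup.norm g ≤ r → (g ∈ T'.1 ↔ g ∈ T.1)}}

/-- `T'` is `T` re-rooted at its vertex `g`. -/
def Reroot {n : ℕ} (g : FreeGroup (Fin n)) (T T' : X n) : Prop :=
  g ∈ T.1 ∧ T'.1 = (fun h => g⁻¹ * h) '' T.1

/-- Centre of the disc that belongs to a signed generator. -/
def centre {n : ℕ} (x : Fin n × Bool) : ℂ := 6 * (x.1 : ℕ) + if x.2 then 3 else 0

/-- The point lies outside the open unit disc of every edge of the tree at the root. -/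
def OutsideDiscs (n : ℕ) (p : X n × OnePoint ℂ) : Prop :=
  ∀ x : Fin n × Bool, FreeGroup.mk [x] ∈ p.1.1 →
    ∀ z : ℂ, p.2 = (z : OnePoint ℂ) → 1 ≤ dist z (centre x)

/-- Pairs of a tree and a point of its sphere with holes. -/
def Pieces (n : ℕ) : Type := Subtype (OutsideDiscs n)

instance instTopPieces (n : ℕ) : TopologicalSpace (Pieces n) :=
  TopologicalSpace.induced Subtype.val inferInstance

/-- Gluing of boundary circles along an edge. -/
def Glue {n : ℕ} (p q : Pieces n) : Prop :=
  ∃ (i : Fin n) (θ : Circle), Reroot (FreeGroup.of i) p.1.1 q.1.1 ∧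
    p.1.2 = ((centre (i, true) + (θ : ℂ) : ℂ) : OnePoint ℂ) ∧
    q.1.2 = ((centre (i, false) + ((θ⁻¹ : Circle) : ℂ) : ℂ) : OnePoint ℂ)

/-- The Kenyon-Ghys foliated space. -/
def M (n : ℕ) : Type := Quot (Glue (n := n))

instance instTopM (n : ℕ) : TopologicalSpace (M n) :=
  TopologicalSpace.coinduced (Quot.mk Glue) inferInstance

/-- The leaf of a tree. -/
def leaf {n : ℕ} (T : X n) : Set (M n) :=
  Quot.mk Glue '' {p : Pieces n | ∃ g, Reroot g T p.1.1}

/-- Leaves of `A` that are not dense in `A`. -/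
def nonDense {n : ℕ} (A : Set (M n)) : Set (Set (M n)) :=
  {L | L ∈ Set.range leaf ∧ L ⊆ A ∧ ¬ A ⊆ closure L}

/-- The level of a graph matchbox manifold. -/
def AtLevel {n : ℕ} : ℕ → Set (M n) → Prop
  | 0, A => (A ∈ Set.range leaf ∧ IsCompact A) ∨ ∀ L ∈ Set.range leaf, L ⊆ A → A ⊆ closure L
  | k + 1, A => closure (Set.sUnion (nonDense A)) ⊂ A ∧
      (∀ L ∈ nonDense A, ∃ j : Fin (k + 1), AtLevel j (closure L)) ∧
      ∃ L ∈ nonDense A, AtLevel k (closure L)
termination_by k => k
decreasing_by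
  · exact j.2
  · exact Nat.lt_succ_self k

/-- The axis of the first generator with a spike at each `m` of binary digit sum less than `k`. -/
def tree (n k : ℕ) : Set (FreeGroup (Fin (n + 2))) :=
  {g | ∃ i : ℤ, g = FreeGroup.of 0 ^ i} ∪
    {g | ∃ m : ℕ, (Nat.digits 2 m).sum < k ∧ g = FreeGroup.of 0 ^ m * FreeGroup.of 1}

end Pool.Agent.MP_598c06_an

end
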