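import Mathlib

namespace Pool.Agent.MP_598c06_an

open Filter

/-- binary digit sum -/
def ds (m : ℕ) : ℕ := (Nat.digits 2 m).sum

lemma ds_zero : ds 0 = 0 := by simp [ds]

lemma ds_two_mul_add (x b : ℕ) (hb : b < 2) : ds (b + 2 * x) = b + ds x := by
  unfold ds
  rcases Nat.eq_zero_or_pos (b + 2 * x) with h | h
  · have h1 : b = 0 := by omega
    have h2 : x = 0 := by omega
    simp [h1, h2]
  · rw [Nat.digits_add 2 (by norm_num) b x hb (by omega)]
    simp

lemma ds_add_pow (M : ℕ) : ∀ a u : ℕ, a < 2 ^ M → ds (a + 2 ^ M * u) = ds a + ds u := by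
  induction M with
  | zero =>
    intro a u ha
    have : a = 0 := by simpa using ha
    simp [this, ds_zero]
  | succ M ih =>
    intro a u ha
    have h1 : a = a % 2 + 2 * (a / 2) := by omega
    have h2 : a / 2 < 2 ^ M := by rw [pow_succ] at ha; omega
    have h3 : a + 2 ^ (M + 1) * u = a % 2 + 2 * (a / 2 + 2 ^ M * u) := by
      rw [pow_succ]; nlinarith
    rw [h3, ds_two_mul_add _ _ (Nat.mod_lt _ (by norm_num)), ih _ _ h2]
    conv_rhs => rw [h1, ds_two_mul_add _ _ (Nat.mod_lt _ (by norm_num))]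
    omega

lemma ds_compl (M : ℕ) : ∀ a f : ℕ, a + f + 1 = 2 ^ M → ds a + ds f = M := by
  induction M with
  | zero =>
    intro a f h
    have h1 : a = 0 := by simp at h; omega
    have h2 : f = 0 := by simp at h; omega
    simp [h1, h2, ds_zero]
  | succ M ih =>
    intro a f h
    rw [pow_succ] at h
    have h1 : a = a % 2 + 2 * (a / 2) := by omega
    have h2 : f = f % 2 + 2 * (f / 2) := by omega
    have h3 := ih (a / 2) (f / 2) (by omega)
    rw [h1, h2, ds_two_mul_add _ _ (Nat.mod_lt _ (by norm_num)),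
      ds_two_mul_add _ _ (Nat.mod_lt _ (by norm_num))]
    omega

lemma ds_le (a : ℕ) : ds a ≤ a := Nat.digit_sum_le 2 a

lemma ds_one : ds 1 = 1 := by simp [ds]

lemma ds_eq_zero {a : ℕ} (h : ds a = 0) : a = 0 := by
  induction a using Nat.strong_induction_on with
  | _ a ih =>
    by_contra ha
    have h1 : a = a % 2 + 2 * (a / 2) := by omega
    rw [h1, ds_two_mul_add _ _ (Nat.mod_lt _ (by norm_num))] at h
    have := ih (a / 2) (by omega) (by omega)
    omega

/-- the set of integers that are natural numbers with digit sum less than `k` -/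
def DD (k : ℕ) : Set ℤ := {d | 0 ≤ d ∧ ds d.toNat < k}

lemma DD_zero : DD 0 = ∅ := by ext d; simp [DD]

lemma mem_DD_add {k M : ℕ} {τ u : ℕ} {d : ℤ} (hM : |d| + τ + k < 2 ^ M) (hM' : |d| + τ + k ≤ M) :
    ((τ + 2 ^ M * u : ℕ) : ℤ) + d ∈ DD k ↔ (τ : ℤ) + d ∈ DD (k - ds u) := by
  by_cases h : 0 ≤ (τ : ℤ) + d
  · obtain ⟨a, ha⟩ := Int.eq_ofNat_of_zero_le h
    have ha2 : a < 2 ^ M := by
      have : (a : ℤ) < 2 ^ M := by
        have := le_abs_self d
        have : (0 : ℤ) ≤ k := by positivity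
        omega
      exact_mod_cast this
    have h1 : ((τ + 2 ^ M * u : ℕ) : ℤ) + d = ((a + 2 ^ M * u : ℕ) : ℤ) := by
      push_cast; omega
    rw [h1, ha]
    simp only [DD, Set.mem_ofPred_eq, Int.toNat_natCast, Int.natCast_nonneg, true_and]
    rw [ds_add_pow M a u ha2]
    omega
  · have h' : ¬ ((τ : ℤ) + d ∈ DD (k - ds u)) := fun hh => h hh.1
    simp only [h', iff_false]
    rintro ⟨h0, h1⟩
    obtain ⟨e, he⟩ : ∃ e : ℕ, (τ : ℤ) + d = -((e : ℤ) + 1) := ⟨(-((τ : ℤ) + d) - 1).toNat, by omega⟩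
    have he2 : (e : ℤ) + 1 ≤ |d| := by
      have := neg_abs_le d
      omega
    rcases Nat.eq_zero_or_pos u with hu | hu
    · subst hu
      push_cast at h0
      omega
    · obtain ⟨v, rfl⟩ : ∃ v, u = v + 1 := ⟨u - 1, by omega⟩
      have he3 : e + 1 ≤ 2 ^ M := by
        have : (e : ℤ) + 1 ≤ 2 ^ M := by
          have : (0 : ℤ) ≤ k := by positivity
          have : (0 : ℤ) ≤ τ := by positivity
          omega
        exact_mod_cast this
      obtain ⟨a, ha⟩ : ∃ a, a + e + 1 = 2 ^ M := ⟨2 ^ M - (e + 1), by omega⟩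
      have h2 : ((τ + 2 ^ M * (v + 1) : ℕ) : ℤ) + d = ((a + 2 ^ M * v : ℕ) : ℤ) := by
        have : ((a + e + 1 : ℕ) : ℤ) = ((2 ^ M : ℕ) : ℤ) := by rw [ha]
        push_cast at this ⊢
        linarith
      rw [h2, Int.toNat_natCast, ds_add_pow M a v (by omega)] at h1
      have h3 := ds_compl M a e ha
      have h4 := ds_le e
      omega

/-- Along an ultrafilter, translates of `DD k` converge to a translate of some `DD j`, `j ≤ k`. -/
lemma ultra_limit {ι : Type*} (U : Ultrafilter ι) (t : ι → ℤ) (k : ℕ) :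
    ∃ j ≤ k, ∃ τ : ℤ, ∀ d : ℤ, ∀ᶠ i in (U : Filter ι), (t i + d ∈ DD k ↔ τ + d ∈ DD j) := by
  by_cases h0 : ∃ d0 : ℤ, ∀ᶠ i in (U : Filter ι), t i + d0 ∈ DD k
  swap
  · refine ⟨0, Nat.zero_le _, 0, fun d => ?_⟩
    have := (Ultrafilter.eventually_not (f := U)).2 (fun h => h0 ⟨d, h⟩)
    filter_upwards [this] with i hi
    simp [hi, DD_zero]
  obtain ⟨d0, hd0⟩ := h0
  set s : ι → ℕ := fun i => (t i + d0).toNat with hs
  have hs1 : ∀ᶠ i in (U : Filter ι), (s i : ℤ) = t i + d0 ∧ ds (s i) < k := by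
    filter_upwards [hd0] with i hi
    exact ⟨Int.toNat_of_nonneg hi.1, hi.2⟩
  have fin : ∀ (f : ι → ℕ) (N : ℕ), (∀ᶠ i in (U : Filter ι), f i < N) →
      ∃ c, ∀ᶠ i in (U : Filter ι), f i = c := by
    intro f N hf
    have h1 : ∀ᶠ i in (U : Filter ι), ∃ c ∈ Finset.range N, f i = c := by
      filter_upwards [hf] with i hi
      exact ⟨f i, Finset.mem_range.2 hi, rfl⟩
    have h2 := (Ultrafilter.eventually_exists_mem_iff (f := U) (is := (Finset.range N : Set ℕ))
      (P := fun c i => f i = c) (Finset.finite_toSet _)).1 (by simpa using h1)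
    obtain ⟨c, _, hc⟩ := h2
    exact ⟨c, hc⟩
  choose τ hτ using fun M : ℕ => fin (fun i => s i % 2 ^ M) (2 ^ M)
    (Eventually.of_forall fun i => Nat.mod_lt _ (by positivity))
  obtain ⟨σ, hσ⟩ := fin (fun i => ds (s i)) k (hs1.mono fun i hi => hi.2)
  have hlt : ∀ M, τ M < 2 ^ M := by
    intro M
    obtain ⟨i, hi⟩ := (hτ M).exists
    rw [← hi]; exact Nat.mod_lt _ (by positivity)
  have hdec : ∀ M, ∀ᶠ i in (U : Filter ι), s i = τ M + 2 ^ M * (s i / 2 ^ M) := by
    intro M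
    filter_upwards [hτ M] with i hi
    rw [← hi]; exact (Nat.mod_add_div _ _).symm
  have hle : ∀ M, ds (τ M) ≤ σ := by
    intro M
    obtain ⟨i, hi, hi'⟩ := ((hdec M).and hσ).exists
    rw [hi, ds_add_pow M _ _ (hlt M)] at hi'
    omega
  have hcompat : ∀ M M', M ≤ M' → τ M' = τ M + 2 ^ M * (τ M' / 2 ^ M) := by
    intro M M' hMM
    obtain ⟨i, hi, hi'⟩ := ((hτ M).and (hτ M')).exists
    have : τ M = τ M' % 2 ^ M := by
      rw [← hi, ← hi']
      exact (Nat.mod_mod_of_dvd _ (pow_dvd_pow 2 hMM)).symm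
    rw [this]; exact (Nat.mod_add_div _ _).symm
  obtain ⟨M0, hM0⟩ : ∃ M0, ∀ M, ds (τ M) ≤ ds (τ M0) := by
    obtain ⟨c, ⟨M0, rfl⟩, hc⟩ := Set.Finite.exists_maximalFor id (Set.range fun M => ds (τ M))
      (by
        exact (Set.finite_Iic σ).subset (by rintro _ ⟨M, rfl⟩; exact hle M))
      (Set.range_nonempty _)
    refine ⟨M0, fun M => ?_⟩
    by_contra hlt'
    have := hc (Set.mem_range_self M) (le_of_lt (not_le.1 hlt'))
    exact hlt' this
  have hconst : ∀ M, M0 ≤ M → τ M = τ M0 := by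
    intro M hM
    have h1 := hcompat M0 M hM
    have h2 := hM0 M
    rw [h1, ds_add_pow M0 _ _ (hlt M0)] at h2
    have h3 : τ M / 2 ^ M0 = 0 := ds_eq_zero (by omega)
    rw [h1, h3]; simp
  refine ⟨k - (σ - ds (τ M0)), Nat.sub_le _ _, (τ M0 : ℤ) - d0, fun d => ?_⟩
  obtain ⟨M, hM1, hM2⟩ : ∃ M : ℕ, M0 ≤ M ∧ |d - d0| + τ M0 + k ≤ M :=
    ⟨M0 + (|d - d0| + τ M0 + k).toNat, by omega, by
      have : 0 ≤ |d - d0| + τ M0 + k := by positivity
      push_cast; omega⟩
  have hM3 : |d - d0| + τ M0 + k < 2 ^ M := by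
    have : (M : ℤ) < 2 ^ M := by exact_mod_cast Nat.lt_two_pow_self
    omega
  filter_upwards [hs1, hdec M, hσ] with i h1 h2 h3
  have key := mem_DD_add (k := k) (M := M) (τ := τ M0) (u := s i / 2 ^ M) (d := d - d0) hM3 hM2
  rw [hconst M hM1] at h2
  have h4 : ds (s i / 2 ^ M) = σ - ds (τ M0) := by
    rw [h2, ds_add_pow M _ _ (hconst M hM1 ▸ hlt M)] at h3
    omega
  rw [← h2, h4] at key
  have e1 : t i + d = (s i : ℤ) + (d - d0) := by omega
  have e2 : (τ M0 : ℤ) - d0 + d = (τ M0 : ℤ) + (d - d0) := by ring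
  rw [e1, e2]; exact key

/-- `DD k` is a limit of translates of `DD (k+1)`. -/
lemma approx (k : ℕ) (d : ℤ) :
    ∀ᶠ M : ℕ in atTop, (((2 ^ M : ℕ) : ℤ) + d ∈ DD (k + 1) ↔ d ∈ DD k) := by
  filter_upwards [eventually_ge_atTop (|d| + (k + 1)).toNat] with M hM
  have h0 : 0 ≤ |d| + (k + 1) := by positivity
  have h1 : (M : ℤ) < 2 ^ M := by exact_mod_cast Nat.lt_two_pow_self
  have key := mem_DD_add (k := k + 1) (M := M) (τ := 0) (u := 1) (d := d)
    (by push_cast; omega) (by push_cast; omega)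
  simpa [ds_one] using key

/-- A translate of `DD k` that equals a translate of `DD j` forces `k = j`. -/
lemma DD_translate_le {j k : ℕ} {a b : ℤ} (h : ∀ d, a + d ∈ DD k ↔ b + d ∈ DD j) : k ≤ j := by
  rcases Nat.eq_zero_or_pos k with rfl | hk
  · exact Nat.zero_le _
  have h0 : ∀ m, 0 < m → (0 : ℤ) ∈ DD m := fun m hm => ⟨le_rfl, by simpa [ds_zero] using hm⟩
  have h1 : b + -a ∈ DD j := (h (-a)).1 (by simpa using h0 k hk)
  have hj : 0 < j := lt_of_le_of_lt (Nat.zero_le _) h1.2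
  have h2 : a + -b ∈ DD k := (h (-b)).2 (by simpa using h0 j hj)
  have hab : a = b := by
    have := h1.1
    have := h2.1
    omega
  subst hab
  obtain ⟨k, rfl⟩ : ∃ k', k = k' + 1 := ⟨k - 1, by omega⟩
  have h3 : ds (2 ^ k - 1) = k := by
    have := ds_compl k (2 ^ k - 1) 0 (by have := Nat.one_le_two_pow (n := k); omega)
    simpa [ds_zero] using this
  have h4 := (h (((2 ^ k - 1 : ℕ) : ℤ) - a)).1 (by
    rw [add_sub_cancel]
    exact ⟨Int.natCast_nonneg _, by rw [Int.toNat_natCast, h3]; omega⟩)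
  rw [add_sub_cancel] at h4
  have h5 := h4.2
  rw [Int.toNat_natCast, h3] at h5
  omega

end Pool.Agent.MP_598c06_an
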