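import Pool.Agent.MP_598c06_an.Space

noncomputable section

namespace Pool.Agent.MP_598c06_an

open Filter Topology FreeGroup

variable {n : ℕ}

/-- first generator -/
abbrev ga (n : ℕ) : FreeGroup (Fin (n + 2)) := FreeGroup.of 0
/-- second generator -/
abbrev gb (n : ℕ) : FreeGroup (Fin (n + 2)) := FreeGroup.of 1

/-- a test action on the integers -/
def phi (n : ℕ) : FreeGroup (Fin (n + 2)) →* Equiv.Perm ℤ :=
  FreeGroup.lift fun i => if i = 0 then Equiv.addRight 1 else Equiv.swap 0 1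

lemma phi_mul (g h : FreeGroup (Fin (n + 2))) (x : ℤ) : phi n (g * h) x = phi n g (phi n h x) := by
  rw [(phi n).map_mul, Equiv.Perm.mul_apply]

lemma phi_a1 (x : ℤ) : phi n (ga n) x = x + 1 := by simp [phi]

lemma phi_a (i : ℤ) : ∀ x : ℤ, phi n (ga n ^ i) x = x + i := by
  induction i using Int.induction_on with
  | zero => intro x; simp
  | succ i ih => intro x; rw [zpow_add_one, phi_mul, ih, phi_a1]; ring
  | pred i ih =>
    intro x
    have h1 := ih (x - 1)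
    have h2 : ga n ^ (-(i : ℤ)) = ga n ^ (-(i : ℤ) - 1) * ga n := by
      rw [← zpow_add_one]; simp
    rw [h2, phi_mul, phi_a1, sub_add_cancel] at h1
    rw [h1]; ring

lemma phi_b : phi n (gb n) = Equiv.swap 0 1 := by simp [phi]

lemma a_inj {i j : ℤ} (h : ga n ^ i = ga n ^ j) : i = j := by
  have := congrArg (fun g => phi n g 0) h
  simp only [phi_a] at this
  omega

lemma a_ne_ab (i j : ℤ) : ga n ^ i ≠ ga n ^ j * gb n := by
  intro h
  have h1 := congrArg (fun g => phi n g 10) h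
  have h2 := congrArg (fun g => phi n g 0) h
  simp only [phi_mul, phi_a, phi_b] at h1 h2
  rw [Equiv.swap_apply_of_ne_of_ne (by norm_num) (by norm_num)] at h1
  rw [Equiv.swap_apply_left] at h2
  omega

lemma ba_ne_a (i : ℤ) : gb n * ga n ≠ ga n ^ i := by
  intro h
  have h1 := congrArg (fun g => phi n g 10) h
  have h2 := congrArg (fun g => phi n g 0) h
  simp only [phi_mul, phi_a, phi_a1, phi_b] at h1 h2
  rw [Equiv.swap_apply_of_ne_of_ne (by norm_num) (by norm_num)] at h1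
  rw [zero_add, Equiv.swap_apply_right] at h2
  omega

lemma ba_ne_ab (i : ℤ) : gb n * ga n ≠ ga n ^ i * gb n := by
  intro h
  have h1 := congrArg (fun g => phi n g 10) h
  have h2 := congrArg (fun g => phi n g 0) h
  simp only [phi_mul, phi_a, phi_a1, phi_b] at h1 h2
  rw [Equiv.swap_apply_of_ne_of_ne (by norm_num) (by norm_num),
    Equiv.swap_apply_of_ne_of_ne (by norm_num) (by norm_num)] at h1
  rw [zero_add, Equiv.swap_apply_right, Equiv.swap_apply_left] at h2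
  omega

/-- the axis with spikes at the positions in `D` -/
def car (n : ℕ) (D : Set ℤ) : Set (FreeGroup (Fin (n + 2))) :=
  {g | (∃ i : ℤ, g = ga n ^ i) ∨ ∃ i ∈ D, g = ga n ^ i * gb n}

lemma adj_mul_of {m : ℕ} (g : FreeGroup (Fin m)) (i : Fin m) : (cay m).Adj g (g * of i) := by
  rw [SimpleGraph.mulCayley_adj']
  exact ⟨by simp, of i, ⟨i, rfl⟩, Or.inl rfl⟩

lemma car_connected (D : Set ℤ) : ((cay (n + 2)).induce (car n D)).Connected := by
  have h1 : (1 : FreeGroup (Fin (n + 2))) ∈ car n D := Or.inl ⟨0, by simp⟩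
  have hstep : ∀ i : ℤ, ((cay (n + 2)).induce (car n D)).Adj ⟨ga n ^ i, Or.inl ⟨i, rfl⟩⟩
      ⟨ga n ^ (i + 1), Or.inl ⟨i + 1, rfl⟩⟩ := by
    intro i
    change (cay (n + 2)).Adj (ga n ^ i) (ga n ^ (i + 1))
    rw [zpow_add_one]
    exact adj_mul_of _ _
  have h2 : ∀ i : ℤ, ((cay (n + 2)).induce (car n D)).Reachable ⟨ga n ^ (0 : ℤ), Or.inl ⟨0, rfl⟩⟩
      ⟨ga n ^ i, Or.inl ⟨i, rfl⟩⟩ := by
    intro i
    induction i using Int.induction_on with
    | zero => rfl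
    | succ i ih => exact ih.trans (hstep i).reachable
    | pred i ih =>
      refine ih.trans ?_
      have := (hstep (-(i : ℤ) - 1)).reachable.symm
      simpa using this
  rw [SimpleGraph.connected_iff_exists_forall_reachable]
  refine ⟨⟨ga n ^ (0 : ℤ), Or.inl ⟨0, rfl⟩⟩, ?_⟩
  rintro ⟨g, ⟨i, rfl⟩ | ⟨i, hi, rfl⟩⟩
  · exact h2 i
  · refine (h2 i).trans (SimpleGraph.Adj.reachable ?_)
    exact adj_mul_of _ _

/-- the tree of a set of integers -/
def TD (n : ℕ) (D : Set ℤ) : X (n + 2) :=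
  ⟨car n D, Set.infinite_of_injective_forall_mem (f := fun i : ℤ => ga n ^ i)
      (fun _ _ h => a_inj h) (fun i => Or.inl ⟨i, rfl⟩), Or.inl ⟨0, by simp⟩,
    car_connected D, (cay_acyclic _).induce _⟩

lemma mem_TD_ab {D : Set ℤ} {i : ℤ} : ga n ^ i * gb n ∈ (TD n D).1 ↔ i ∈ D := by
  constructor
  · rintro (⟨j, h⟩ | ⟨j, hj, h⟩)
    · exact absurd h.symm (a_ne_ab _ _)
    · rw [a_inj (mul_right_cancel h)]; exact hj
  · exact fun h => Or.inr ⟨i, h, rfl⟩

lemma tendsto_TD {ι : Type*} {l : Filter ι} {D : ι → Set ℤ} {E : Set ℤ}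
    (h : ∀ d, ∀ᶠ i in l, (d ∈ D i ↔ d ∈ E)) (g : FreeGroup (Fin (n + 2))) :
    ∀ᶠ i in l, (g ∈ (TD n (D i)).1 ↔ g ∈ (TD n E).1) := by
  by_cases hg : ∃ d : ℤ, g = ga n ^ d * gb n
  · obtain ⟨d, rfl⟩ := hg
    filter_upwards [h d] with i hi
    rw [mem_TD_ab, mem_TD_ab, hi]
  · refine Eventually.of_forall fun i => ?_
    constructor
    · rintro (h1 | ⟨d, _, h1⟩)
      · exact Or.inl h1
      · exact absurd ⟨d, h1⟩ hg
    · rintro (h1 | ⟨d, _, h1⟩)
      · exact Or.inl h1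
      · exact absurd ⟨d, h1⟩ hg

lemma mem_TD_shift (D : Set ℤ) (t : ℤ) (x : FreeGroup (Fin (n + 2))) :
    x ∈ (TD n {d | t + d ∈ D}).1 ↔ ga n ^ t * x ∈ (TD n D).1 := by
  constructor
  · rintro (⟨i, rfl⟩ | ⟨i, hi, rfl⟩)
    · exact Or.inl ⟨t + i, by rw [zpow_add]⟩
    · exact Or.inr ⟨t + i, hi, by rw [zpow_add, mul_assoc]⟩
  · rintro (⟨i, h⟩ | ⟨i, hi, h⟩)
    · exact Or.inl ⟨-t + i, by rw [zpow_add, ← h, zpow_neg, inv_mul_cancel_left]⟩
    · exact Or.inr ⟨-t + i, by simpa using hi,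
        by rw [zpow_add, mul_assoc, ← h, zpow_neg, inv_mul_cancel_left]⟩

lemma rel_TD_iff {D : Set ℤ} {S : X (n + 2)} :
    Rel (TD n D) S ↔ ∃ t : ℤ, Reroot 1 (TD n {d | t + d ∈ D}) S ∨
      Reroot (gb n) (TD n {d | t + d ∈ D}) S := by
  constructor
  · rintro ⟨g, hg⟩
    rcases hg.1 with ⟨i, rfl⟩ | ⟨i, _, rfl⟩
    · exact ⟨i, Or.inl (reroot_of_iff fun x => by rw [hg.mem_iff, mem_TD_shift, one_mul])⟩
    · exact ⟨i, Or.inr (reroot_of_iff fun x => by rw [hg.mem_iff, mem_TD_shift, mul_assoc])⟩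
  · rintro ⟨t, h | h⟩
    · exact Rel.trans ⟨_, reroot_of_iff (mem_TD_shift D t)⟩ ⟨_, h⟩
    · exact Rel.trans ⟨_, reroot_of_iff (mem_TD_shift D t)⟩ ⟨_, h⟩

lemma closure_orb_subset (k : ℕ) :
    closure (orb (TD n (DD k))) ⊆ {S | ∃ j ≤ k, Rel (TD n (DD j)) S} := by
  intro S hS
  rw [mem_closure_iff_ultrafilter] at hS
  obtain ⟨U, hU, hle⟩ := hS
  have h1 := tendsto_X_iff.1 (show Tendsto id (U : Filter (X (n + 2))) (𝓝 S) from hle)
  have h2 : ∀ R : X (n + 2), ∃ t : ℤ, R ∈ orb (TD n (DD k)) →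
      (Reroot 1 (TD n {d | t + d ∈ DD k}) R ∨ Reroot (gb n) (TD n {d | t + d ∈ DD k}) R) := by
    intro R
    by_cases h : R ∈ orb (TD n (DD k))
    · obtain ⟨t, ht⟩ := rel_TD_iff.1 h
      exact ⟨t, fun _ => ht⟩
    · exact ⟨0, fun h' => absurd h' h⟩
  choose t ht using h2
  obtain ⟨j, hj, τ, hτ⟩ := ultra_limit U t k
  have h3 : ∀ c, (∀ᶠ R in (U : Filter (X (n + 2))), Reroot c (TD n {d | t R + d ∈ DD k}) R) →
      Reroot c (TD n {d | τ + d ∈ DD j}) S := by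
    intro c hc
    refine reroot_of_iff fun x => ?_
    obtain ⟨R, h4, h5, h6⟩ := (hc.and ((h1 x).and (tendsto_TD (n := n)
      (D := fun R => {d | t R + d ∈ DD k}) (E := {d | τ + d ∈ DD j}) hτ (c * x)))).exists
    rw [← h6, ← h4.mem_iff]
    exact h5.symm
  have h4 : ∀ᶠ R in (U : Filter (X (n + 2))), (Reroot 1 (TD n {d | t R + d ∈ DD k}) R ∨
      Reroot (gb n) (TD n {d | t R + d ∈ DD k}) R) := by
    filter_upwards [hU] with R hR using ht R hR
  refine ⟨j, hj, rel_TD_iff.2 ⟨τ, ?_⟩⟩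
  rcases Ultrafilter.eventually_or.1 h4 with h | h
  · exact Or.inl (h3 _ h)
  · exact Or.inr (h3 _ h)

lemma closure_orb_mono (k : ℕ) :
    closure (orb (TD n (DD k))) ⊆ closure (orb (TD n (DD (k + 1)))) := by
  refine closure_minimal ?_ isClosed_closure
  have h : TD n (DD k) ∈ closure (orb (TD n (DD (k + 1)))) := by
    refine mem_closure_of_tendsto (f := fun M : ℕ => TD n {d | ((2 ^ M : ℕ) : ℤ) + d ∈ DD (k + 1)})
      (b := atTop) (tendsto_X_iff.2 (tendsto_TD (approx k))) (Eventually.of_forall fun M => ?_)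
    exact ⟨_, reroot_of_iff (mem_TD_shift _ _)⟩
  exact fun S hS => (orb_inv _).closure _ _ h hS

lemma closure_orb (k : ℕ) :
    closure (orb (TD n (DD k))) = {S | ∃ j ≤ k, Rel (TD n (DD j)) S} := by
  refine Set.Subset.antisymm (closure_orb_subset k) ?_
  rintro S ⟨j, hj, hS⟩
  have : closure (orb (TD n (DD j))) ⊆ closure (orb (TD n (DD k))) :=
    monotone_nat_of_le_succ (f := fun k => closure (orb (TD n (DD k)))) closure_orb_mono hj
  exact this (subset_closure hS)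

lemma rel_le (j k : ℕ) (h : Rel (TD n (DD j)) (TD n (DD k))) : k ≤ j := by
  obtain ⟨t, h | h⟩ := rel_TD_iff.1 h
  · refine DD_translate_le (a := 0) (b := t) fun d => ?_
    have := h.mem_iff (ga n ^ d * gb n)
    rw [one_mul, mem_TD_ab, mem_TD_ab] at this
    simpa using this
  · exfalso
    rcases (h.mem_iff (ga n)).1 (Or.inl ⟨1, by simp⟩) with ⟨i, hi⟩ | ⟨i, _, hi⟩
    · exact ba_ne_a _ hi
    · exact ba_ne_ab _ hi

lemma TD_eq_tree (n k : ℕ) : (TD n (DD k)).1 = tree n k := by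
  ext g
  constructor
  · rintro (h | ⟨i, hi, rfl⟩)
    · exact Or.inl h
    · refine Or.inr ⟨i.toNat, hi.2, ?_⟩
      rw [← zpow_natCast, Int.toNat_of_nonneg hi.1]
  · rintro (h | ⟨m, hm, rfl⟩)
    · exact Or.inl h
    · exact Or.inr ⟨m, ⟨Int.natCast_nonneg m, by simpa [ds] using hm⟩, by rw [zpow_natCast]⟩

theorem main (n k : ℕ) :
    ∃ T : X (n + 2), T.1 = tree n k ∧ ∀ j : ℕ, AtLevel j (closure (leaf T)) ↔ j = k := by
  have h := atLevel_of_chain (fun k => TD n (DD k)) closure_orb rel_le k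
  exact ⟨TD n (DD k), TD_eq_tree n k, fun j =>
    ⟨fun hj => atLevel_unique _ _ _ hj h, fun hj => hj ▸ h⟩⟩

end Pool.Agent.MP_598c06_an
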