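import Mathlib

namespace Pool.Agent.MP_598c06_an

/-- The axis of the first generator with a spike at each `m` that has fewer than `k` odd digits
in base 4. -/
def rtree (n k : ℕ) : Set (FreeGroup (Fin (n + 2))) :=
  {g | ∃ i : ℤ, g = FreeGroup.of 0 ^ i} ∪
    {g | ∃ m : ℕ, (Nat.digits 4 m).countP (fun x => x % 2 = 1) < k ∧
      g = FreeGroup.of 0 ^ m * FreeGroup.of 1}

end Pool.Agent.MP_598c06_an
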