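import Pool.Agent.Mg.F598c06.G45af1e
import Pool.Agent.MP_598c06_an.RDefs

/-! A recurrent leaf at each finite level. -/

noncomputable section

namespace Pool.Agent.MP_598c06_an

open Filter Topology FreeGroup

/-- number of odd digits in base 4 -/
def od (m : ℕ) : ℕ := (Nat.digits 4 m).countP (fun x => x % 2 = 1)

lemma od_zero : od 0 = 0 := by simp [od]

lemma od_step (x b : ℕ) (hb : b < 4) : od (b + 4 * x) = b % 2 + od x := by
  unfold od
  rcases Nat.eq_zero_or_pos (b + 4 * x) with h | h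
  · have h1 : b = 0 := by omega
    have h2 : x = 0 := by omega
    simp [h1, h2]
  · rw [Nat.digits_add 4 (by norm_num) b x hb (by omega), List.countP_cons]
    rcases Nat.mod_two_eq_zero_or_one b with h | h <;> simp [h, add_comm]

lemma od_eq (a : ℕ) : od a = a % 2 + od (a / 4) := by
  conv_lhs => rw [show a = a % 4 + 4 * (a / 4) by omega,
    od_step _ _ (Nat.mod_lt _ (by norm_num))]
  omega

lemma od_add_pow (M : ℕ) : ∀ a u : ℕ, a < 4 ^ M → od (a + 4 ^ M * u) = od a + od u := by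
  induction M with
  | zero =>
    intro a u ha
    have : a = 0 := by simpa using ha
    simp [this, od_zero]
  | succ M ih =>
    intro a u ha
    have h2 : a / 4 < 4 ^ M := by rw [pow_succ] at ha; omega
    have h3 : a + 4 ^ (M + 1) * u = a % 4 + 4 * (a / 4 + 4 ^ M * u) := by
      have h1 : a = a % 4 + 4 * (a / 4) := by omega
      rw [pow_succ]; nlinarith
    rw [h3, od_step _ _ (Nat.mod_lt _ (by norm_num)), ih _ _ h2, od_eq a]
    omega

lemma od_compl (M : ℕ) : ∀ a f : ℕ, a + f + 1 = 4 ^ M → od a + od f = M := by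
  induction M with
  | zero =>
    intro a f h
    have h1 : a = 0 := by simp at h; omega
    have h2 : f = 0 := by simp at h; omega
    simp [h1, h2, od_zero]
  | succ M ih =>
    intro a f h
    rw [pow_succ] at h
    have h3 := ih (a / 4) (f / 4) (by omega)
    rw [od_eq a, od_eq f]
    omega

lemma od_le (a : ℕ) : od a ≤ a := by
  induction a using Nat.strong_induction_on with
  | _ a ih =>
    rcases Nat.eq_zero_or_pos a with rfl | h
    · simp [od_zero]
    · have := ih (a / 4) (by omega)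
      rw [od_eq a]
      omega

lemma od_lt_pow (M a : ℕ) (h : a < 4 ^ M) : od a ≤ M := by
  have := od_compl M a (4 ^ M - 1 - a) (by omega)
  omega

/-- natural numbers with fewer than `k` odd digits -/
def RR (k : ℕ) : Set ℤ := {d | 0 ≤ d ∧ od d.toNat < k}

lemma RR_zero : RR 0 = ∅ := by ext d; simp [RR]

lemma mem_RR {k a : ℕ} : (a : ℤ) ∈ RR k ↔ od a < k := by simp [RR]

lemma mem_RR_add {k M τ u : ℕ} {d : ℤ} (hτ : τ < 4 ^ M) (hk : od τ < k) (hM : |d| + k ≤ M) :
    ((τ + 4 ^ M * u : ℕ) : ℤ) + d ∈ RR k ↔ (τ : ℤ) + d ∈ RR (k - od u) := by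
  have hp : M < 4 ^ M := Nat.lt_pow_self (by norm_num)
  have h5 := le_abs_self d
  have h6 := neg_abs_le d
  by_cases h : 0 ≤ (τ : ℤ) + d
  · obtain ⟨a, ha⟩ := Int.eq_ofNat_of_zero_le h
    have ha2 : a < 4 ^ M := by
      by_contra hc
      obtain ⟨f, hf⟩ : ∃ f, τ + f + 1 = 4 ^ M := ⟨4 ^ M - 1 - τ, by omega⟩
      have h3 := od_compl M τ f hf
      have h4 := od_le f
      omega
    have h1 : ((τ + 4 ^ M * u : ℕ) : ℤ) + d = ((a + 4 ^ M * u : ℕ) : ℤ) := by
      push_cast; omega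
    rw [h1, ha, mem_RR, mem_RR, od_add_pow M a u ha2]
    omega
  · have h' : ¬ ((τ : ℤ) + d ∈ RR (k - od u)) := fun hh => h hh.1
    simp only [h', iff_false]
    intro h1
    obtain ⟨e, he⟩ : ∃ e : ℕ, (τ : ℤ) + d = -((e : ℤ) + 1) :=
      ⟨(-((τ : ℤ) + d) - 1).toNat, by omega⟩
    rcases Nat.eq_zero_or_pos u with rfl | hu
    · have h0 := h1.1
      push_cast at h0
      omega
    · obtain ⟨v, rfl⟩ : ∃ v, u = v + 1 := ⟨u - 1, by omega⟩
      obtain ⟨a, ha⟩ : ∃ a, a + e + 1 = 4 ^ M := ⟨4 ^ M - (e + 1), by omega⟩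
      have h2 : ((τ + 4 ^ M * (v + 1) : ℕ) : ℤ) + d = ((a + 4 ^ M * v : ℕ) : ℤ) := by
        have : ((a + e + 1 : ℕ) : ℤ) = ((4 ^ M : ℕ) : ℤ) := by rw [ha]
        push_cast at this ⊢
        linarith
      rw [h2, mem_RR, od_add_pow M a v (by omega)] at h1
      have h3 := od_compl M a e ha
      have h4 := od_le e
      omega

lemma mem_RR_pow {k M u : ℕ} {d : ℤ} (hk : 0 < k) (hM : |d| + k ≤ M) :
    ((4 ^ M * u : ℕ) : ℤ) + d ∈ RR k ↔ d ∈ RR (k - od u) := by
  simpa using mem_RR_add (τ := 0) (u := u) (by positivity) (by rwa [od_zero]) hM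

lemma ev_big (d : ℤ) (k : ℕ) : ∀ᶠ M : ℕ in atTop, |d| + k ≤ M := by
  filter_upwards [eventually_ge_atTop (|d| + k).toNat] with M hM
  omega

lemma ultra_val {ι : Type*} (U : Ultrafilter ι) (f : ι → ℕ) (N : ℕ)
    (h : ∀ᶠ i in (U : Filter ι), f i < N) : ∃ c, ∀ᶠ i in (U : Filter ι), f i = c := by
  have h1 : ∀ᶠ i in (U : Filter ι), ∃ c ∈ Set.Iio N, f i = c := h.mono fun i hi => ⟨_, hi, rfl⟩
  obtain ⟨c, _, hc⟩ := (Ultrafilter.eventually_exists_mem_iff (Set.finite_Iio N)).1 h1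
  exact ⟨c, hc⟩

/-- A limit of translates of `RR k` and some `RR j`, `j ≤ k`, are limits of translates of each
other. -/
lemma ultra_rec {ι : Type*} (U : Ultrafilter ι) (t : ι → ℤ) (k : ℕ) (D : Set ℤ)
    (hD : ∀ d, d ∈ D ↔ ∀ᶠ i in (U : Filter ι), t i + d ∈ RR k) :
    ∃ j ≤ k, ∃ s s' : ℕ → ℤ, ∀ d,
      (∀ᶠ M in (hyperfilter ℕ : Filter ℕ), (s M + d ∈ RR j ↔ d ∈ D)) ∧
      ∀ᶠ M in (hyperfilter ℕ : Filter ℕ), (s' M + d ∈ D ↔ d ∈ RR j) := by
  rcases D.eq_empty_or_nonempty with rfl | ⟨d0, hd0⟩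
  · exact ⟨0, Nat.zero_le _, 0, 0, fun d => by simp [RR_zero]⟩
  rw [hD] at hd0
  set x : ι → ℕ := fun i => (t i + d0).toNat with hx
  have h1 : ∀ᶠ i in (U : Filter ι), (x i : ℤ) = t i + d0 ∧ od (x i) < k :=
    hd0.mono fun i hi => ⟨Int.toNat_of_nonneg hi.1, hi.2⟩
  have hk : 0 < k := by
    obtain ⟨i, hi⟩ := h1.exists
    omega
  have hdec : ∀ M y : ℕ, od y = od (y % 4 ^ M) + od (y / 4 ^ M) := fun M y => by
    rw [← od_add_pow M _ _ (Nat.mod_lt _ (by positivity)), Nat.mod_add_div]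
  choose τ hτ using fun M => ultra_val U (fun i => x i % 4 ^ M) (4 ^ M)
    (Eventually.of_forall fun i => Nat.mod_lt _ (by positivity))
  choose c hc using fun M => ultra_val U (fun i => od (x i / 4 ^ M)) k
    (h1.mono fun i hi => by have := hdec M (x i); omega)
  obtain ⟨c0, hc0⟩ := ultra_val (hyperfilter ℕ) c k (Eventually.of_forall fun M => by
    obtain ⟨i, hi, h2⟩ := (h1.and (hc M)).exists
    have := hdec M (x i)
    omega)
  have hle : (hyperfilter ℕ : Filter ℕ) ≤ atTop := Nat.hyperfilter_le_atTop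
  have fin : ∀ {p : ι → Prop} {q : Prop}, (∀ᶠ i in (U : Filter ι), (p i ↔ q)) →
      ((∀ᶠ i in (U : Filter ι), p i) ↔ q) := fun {p q} h =>
    ⟨fun h' => by obtain ⟨i, h2, h3⟩ := (h.and h').exists; exact h2.1 h3,
      fun h' => h.mono fun i hi => hi.2 h'⟩
  refine ⟨k - c0, Nat.sub_le _ _, fun M => τ M - d0, fun M => d0 - τ M, fun d => ⟨?_, ?_⟩⟩
  · filter_upwards [hc0, hle (ev_big (d - d0) k)] with M h2 h3
    rw [hD]
    refine (fin ?_).symm
    filter_upwards [h1, hτ M, hc M] with i h4 h5 h6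
    have h7 := hdec M (x i)
    have h8 := mem_RR_add (k := k) (M := M) (τ := x i % 4 ^ M) (u := x i / 4 ^ M) (d := d - d0)
      (Nat.mod_lt _ (by positivity)) (by omega) h3
    rw [Nat.mod_add_div, h4.1, h5, h6, h2] at h8
    convert h8 using 2 <;> ring
  · filter_upwards [hc0, hle (ev_big d k)] with M h2 h3
    rw [hD]
    refine fin ?_
    filter_upwards [h1, hτ M, hc M] with i h4 h5 h6
    have h8 := mem_RR_pow (u := x i / 4 ^ M) hk h3
    rw [h6, h2] at h8
    have h9 : ((x i % 4 ^ M + 4 ^ M * (x i / 4 ^ M) : ℕ) : ℤ) = t i + d0 := by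
      rw [Nat.mod_add_div, h4.1]
    rw [h5, Nat.cast_add] at h9
    convert h8 using 2
    linarith

lemma no_run (j : ℕ) (t : ℤ) : ¬ ∀ i : ℕ, i < 4 ^ j → t + i ∈ RR j := by
  intro h
  have hp : 0 < 4 ^ j := by positivity
  obtain ⟨a, rfl⟩ := Int.eq_ofNat_of_zero_le (show 0 ≤ t by simpa using (h 0 hp).1)
  have h1 := h (4 ^ j - 1 - a % 4 ^ j) (by omega)
  have h2 := Nat.mod_lt a hp
  have h3 := Nat.mod_add_div a (4 ^ j)
  rw [← Nat.cast_add, mem_RR, show a + (4 ^ j - 1 - a % 4 ^ j) = 4 ^ j - 1 + 4 ^ j * (a / 4 ^ j) by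
    omega, od_add_pow _ _ _ (by omega)] at h1
  have h4 := od_compl j (4 ^ j - 1) 0 (by omega)
  rw [od_zero] at h4
  omega

/-- A chain of orbit closures that contains all orbit closures of its points has the levels. -/
lemma atLevel_of_chain' {n : ℕ} (T : ℕ → X n)
    (hcl : ∀ k, ∀ S ∈ closure (orb (T k)), ∃ j ≤ k, closure (orb S) = closure (orb (T j)))
    (hmono : ∀ k, T k ∈ closure (orb (T (k + 1))))
    (hne : ∀ j k, T k ∈ closure (orb (T j)) → k ≤ j) (k : ℕ) :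
    AtLevel k (closure (leaf (T k))) := by
  have hW : ∀ S : X n, Inv (closure (orb S)) := fun S => (orb_inv _).closure
  have hleaf : ∀ S : X n, closure (leaf S) = sat (closure (orb S)) := fun S => by
    rw [leaf_eq, closure_sat (orb_inv _)]
  have hsub : ∀ {S S' : X n}, S ∈ closure (orb S') → closure (orb S) ⊆ closure (orb S') :=
    fun h => closure_minimal (fun R hR => hW _ _ _ h hR) isClosed_closure
  have hm : Monotone fun k => closure (orb (T k)) :=
    monotone_nat_of_le_succ fun k => hsub (hmono k)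
  have hself : ∀ S : X n, S ∈ closure (orb S) := fun S => subset_closure (Rel.refl S)
  have hnd : ∀ k L, L ∈ nonDense (closure (leaf (T k))) →
      ∃ j < k, closure L = closure (leaf (T j)) := by
    rintro k L ⟨⟨S, rfl⟩, h1, h2⟩
    rw [hleaf, leaf_eq, sat_subset_iff (hW _)] at h1
    obtain ⟨j, hj, hS⟩ := hcl k S (h1 (Rel.refl S))
    refine ⟨j, lt_of_le_of_ne hj ?_, by rw [hleaf, hleaf, hS]⟩
    rintro rfl
    exact h2 (by rw [hleaf, hleaf, hS])
  have hnd' : ∀ k, leaf (T k) ∈ nonDense (closure (leaf (T (k + 1)))) := by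
    intro k
    refine ⟨⟨_, rfl⟩, ?_, ?_⟩
    · rw [hleaf, leaf_eq, sat_subset_iff (hW _)]
      exact subset_closure.trans (hsub (hmono k))
    · rw [hleaf, hleaf, sat_subset_iff (hW _)]
      intro h
      have := hne _ _ (h (hself _))
      omega
  induction k using Nat.strong_induction_on with
  | _ k ih =>
    cases k with
    | zero =>
      rw [AtLevel]
      right
      intro L hL h1
      by_contra h2
      obtain ⟨j, hj, _⟩ := hnd 0 L ⟨hL, h1, h2⟩
      omega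
    | succ k =>
      rw [AtLevel]
      refine ⟨?_, ?_, leaf (T k), hnd' k, ih k (Nat.lt_succ_self k)⟩
      · have h1 : closure (⋃₀ nonDense (closure (leaf (T (k + 1))))) ⊆ closure (leaf (T k)) := by
          refine closure_minimal ?_ isClosed_closure
          rintro x ⟨L, hL, hx⟩
          obtain ⟨j, hj, h3⟩ := hnd _ _ hL
          have : closure (leaf (T j)) ⊆ closure (leaf (T k)) := by
            rw [hleaf, hleaf, sat_subset_iff (hW _)]
            exact hm (by omega)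
          exact this (h3 ▸ subset_closure hx)
        refine lt_of_le_of_lt h1 ?_
        obtain ⟨_, h2, h3⟩ := hnd' k
        exact ⟨closure_minimal h2 isClosed_closure, h3⟩
      · intro L hL
        obtain ⟨j, hj, h3⟩ := hnd _ _ hL
        exact ⟨⟨j, hj⟩, h3 ▸ ih j hj⟩

variable {n : ℕ}

lemma mem_clos {ι : Type*} {l : Filter ι} [l.NeBot] {D E : Set ℤ} (s : ι → ℤ)
    (h : ∀ d, ∀ᶠ M in l, (s M + d ∈ D ↔ d ∈ E)) : TD n E ∈ closure (orb (TD n D)) :=
  mem_closure_of_tendsto (f := fun M => TD n {d | s M + d ∈ D}) (b := l)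
    (tendsto_X_iff.2 (tendsto_TD h))
    (Eventually.of_forall fun _ => ⟨_, reroot_of_iff (mem_TD_shift _ _)⟩)

lemma exists_ultra {D : Set ℤ} {S : X (n + 2)} (hS : S ∈ closure (orb (TD n D))) :
    ∃ (U : Ultrafilter (X (n + 2))) (t : X (n + 2) → ℤ),
      Rel (TD n {d | ∀ᶠ i in (U : Filter (X (n + 2))), t i + d ∈ D}) S := by
  rw [mem_closure_iff_ultrafilter] at hS
  obtain ⟨U, hU, hle⟩ := hS
  have h1 := tendsto_X_iff.1 (show Tendsto id (U : Filter (X (n + 2))) (𝓝 S) from hle)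
  have h2 : ∀ R : X (n + 2), ∃ t : ℤ, R ∈ orb (TD n D) →
      (Reroot 1 (TD n {d | t + d ∈ D}) R ∨ Reroot (gb n) (TD n {d | t + d ∈ D}) R) := by
    intro R
    by_cases h : R ∈ orb (TD n D)
    · obtain ⟨t, ht⟩ := rel_TD_iff.1 h
      exact ⟨t, fun _ => ht⟩
    · exact ⟨0, fun h' => absurd h' h⟩
  choose t ht using h2
  refine ⟨U, t, ?_⟩
  set E : Set ℤ := {d | ∀ᶠ i in (U : Filter (X (n + 2))), t i + d ∈ D} with hE
  have hτ : ∀ d, ∀ᶠ R in (U : Filter (X (n + 2))), (d ∈ {d | t R + d ∈ D} ↔ d ∈ E) := by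
    intro d
    by_cases h : d ∈ E
    · exact Eventually.mono h fun R hR => iff_of_true hR h
    · exact ((Ultrafilter.eventually_not (f := U)).2 h).mono fun R hR => iff_of_false hR h
  have h3 : ∀ c, (∀ᶠ R in (U : Filter (X (n + 2))), Reroot c (TD n {d | t R + d ∈ D}) R) →
      Reroot c (TD n E) S := by
    intro c hc
    refine reroot_of_iff fun x => ?_
    obtain ⟨R, h4, h5, h6⟩ := (hc.and ((h1 x).and (tendsto_TD (n := n)
      (D := fun R => {d | t R + d ∈ D}) (E := E) hτ (c * x)))).exists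
    rw [← h6, ← h4.mem_iff]
    exact h5.symm
  have h4 : ∀ᶠ R in (U : Filter (X (n + 2))), (Reroot 1 (TD n {d | t R + d ∈ D}) R ∨
      Reroot (gb n) (TD n {d | t R + d ∈ D}) R) := by
    filter_upwards [hU] with R hR using ht R hR
  rcases Ultrafilter.eventually_or.1 h4 with h | h
  · exact ⟨_, h3 _ h⟩
  · exact ⟨_, h3 _ h⟩

lemma rec_cl (k : ℕ) (S : X (n + 2)) (hS : S ∈ closure (orb (TD n (RR k)))) :
    ∃ j ≤ k, closure (orb S) = closure (orb (TD n (RR j))) := by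
  obtain ⟨U, t, h⟩ := exists_ultra hS
  obtain ⟨j, hj, s, s', h1⟩ := ultra_rec U t k _ fun d => Iff.rfl
  have hW : ∀ S : X (n + 2), Inv (closure (orb S)) := fun S => (orb_inv _).closure
  have hsub : ∀ {S S' : X (n + 2)}, S ∈ closure (orb S') → closure (orb S) ⊆ closure (orb S') :=
    fun h => closure_minimal (fun R hR => hW _ _ _ h hR) isClosed_closure
  refine ⟨j, hj, Set.Subset.antisymm (hsub (hW _ _ _ (mem_clos s fun d => (h1 d).1) h))
    (hsub (hsub (subset_closure h.symm) (mem_clos s' fun d => (h1 d).2)))⟩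

lemma rec_mono (k : ℕ) : TD n (RR k) ∈ closure (orb (TD n (RR (k + 1)))) := by
  refine mem_clos (l := atTop) (fun M : ℕ => ((4 ^ M * 1 : ℕ) : ℤ)) fun d => ?_
  filter_upwards [ev_big d (k + 1)] with M hM
  have h1 : od 1 = 1 := by rw [od_eq]; simp [od_zero]
  have := mem_RR_pow (u := 1) (Nat.succ_pos k) (by exact_mod_cast hM)
  rwa [h1] at this

lemma rec_ne (j k : ℕ) (h : TD n (RR k) ∈ closure (orb (TD n (RR j)))) : k ≤ j := by
  by_contra hc
  rw [mem_closure_iff_ultrafilter] at h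
  obtain ⟨U, hU, hle⟩ := h
  have h1 := tendsto_X_iff.1
    (show Tendsto id (U : Filter (X (n + 2))) (𝓝 (TD n (RR k))) from hle)
  have h2 : ∀ᶠ R in (U : Filter (X (n + 2))), ∀ i ∈ Set.Iio (4 ^ j : ℕ),
      ga n ^ (i : ℤ) * gb n ∈ R.1 := by
    rw [eventually_all_finite (Set.finite_Iio _)]
    intro i hi
    refine (h1 _).mono fun R hR => hR.2 (mem_TD_ab.2 (mem_RR.2 ?_))
    have := od_lt_pow j i hi
    omega
  obtain ⟨R, h3, h4, h5⟩ := (h2.and ((h1 (ga n)).and hU)).exists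
  obtain ⟨t, h | h⟩ := rel_TD_iff.1 h5
  · refine no_run j t fun i hi => ?_
    have := (h.mem_iff _).1 (h3 i hi)
    rwa [one_mul, mem_TD_ab] at this
  · rcases (h.mem_iff (ga n)).1 (h4.2 (Or.inl ⟨1, by simp⟩)) with ⟨i, hi⟩ | ⟨i, _, hi⟩
    · exact ba_ne_a _ hi
    · exact ba_ne_ab _ hi

lemma rec_acc {k : ℕ} (hk : 0 < k) :
    TD n (RR k) ∈ closure ({T' | ∃ g, Reroot g (TD n (RR k)) T'} \ {TD n (RR k)}) := by
  refine mem_closure_of_tendsto (f := fun M : ℕ => TD n {d | ((4 ^ M * 2 : ℕ) : ℤ) + d ∈ RR k})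
    (b := atTop) (tendsto_X_iff.2 (tendsto_TD fun d => ?_))
    (Eventually.of_forall fun M => ⟨⟨_, reroot_of_iff (mem_TD_shift _ _)⟩, fun h => ?_⟩)
  · filter_upwards [ev_big d k] with M hM
    have h1 : od 2 = 0 := by rw [od_eq]; simp [od_zero]
    have := mem_RR_pow (u := 2) hk hM
    rwa [h1] at this
  · have h1 : ga n ^ (-((4 ^ M * 2 : ℕ) : ℤ)) * gb n ∈
        (TD n {d | ((4 ^ M * 2 : ℕ) : ℤ) + d ∈ RR k}).1 := by
      rw [mem_TD_ab, Set.mem_ofPred_eq, add_neg_cancel]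
      exact mem_RR.2 (by rwa [od_zero])
    rw [Set.mem_singleton_iff.1 h, mem_TD_ab] at h1
    have h2 := h1.1
    have h3 : 0 < 4 ^ M * 2 := by positivity
    omega

lemma TD_eq_rtree (n k : ℕ) : (TD n (RR k)).1 = rtree n k := by
  ext g
  constructor
  · rintro (h | ⟨i, hi, rfl⟩)
    · exact Or.inl h
    · refine Or.inr ⟨i.toNat, hi.2, ?_⟩
      rw [← zpow_natCast, Int.toNat_of_nonneg hi.1]
  · rintro (h | ⟨m, hm, rfl⟩)
    · exact Or.inl h
    · exact Or.inr ⟨m, mem_RR.2 hm, by rw [zpow_natCast]⟩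

theorem rec_main (n k : ℕ) (hk : 1 ≤ k) :
    ∃ T : X (n + 2), T.1 = rtree n k ∧ T ∈ closure ({T' | ∃ g, Reroot g T T'} \ {T}) ∧
      ∀ j : ℕ, AtLevel j (closure (leaf T)) ↔ j = k := by
  have h := atLevel_of_chain' (fun k => TD n (RR k)) rec_cl rec_mono rec_ne k
  exact ⟨TD n (RR k), TD_eq_rtree n k, rec_acc hk, fun j =>
    ⟨fun hj => atLevel_unique _ _ _ hj h, fun hj => hj ▸ h⟩⟩

end Pool.Agent.MP_598c06_an

end
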