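import Pool.Agent.MP_598c06_an.Trees

noncomputable section

namespace Pool.Agent.MP_598c06_an

open Filter Topology FreeGroup

/-- the union of the leaves through a subset of the transversal -/
def sat {n : ℕ} (A : Set (X n)) : Set (M n) := Quot.mk Glue '' {p : Pieces n | p.1.1 ∈ A}

/-- the orbit of a tree -/
def orb {n : ℕ} (T : X n) : Set (X n) := {T' | Rel T T'}

lemma leaf_eq {n : ℕ} (T : X n) : leaf T = sat (orb T) := rfl

lemma orb_inv {n : ℕ} (T : X n) : Inv (orb T) := fun _ _ h h' => Rel.trans h h'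

lemma rel_of_mk_eq {n : ℕ} {p q : Pieces n} (h : (Quot.mk Glue p : M n) = Quot.mk Glue q) :
    Rel p.1.1 q.1.1 := by
  have := Quot.eqvGen_exact h
  clear h
  induction this with
  | rel x y h => obtain ⟨i, _, h, _⟩ := h; exact ⟨_, h⟩
  | refl x => exact Rel.refl _
  | symm x y _ ih => exact ih.symm
  | trans x y z _ _ ih1 ih2 => exact ih1.trans ih2

lemma mk_mem_sat {n : ℕ} {A : Set (X n)} (hA : Inv A) (p : Pieces n) :
    (Quot.mk Glue p : M n) ∈ sat A ↔ p.1.1 ∈ A :=
  ⟨fun ⟨_, hq, h⟩ => hA _ _ hq (rel_of_mk_eq h), fun h => ⟨p, h, rfl⟩⟩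

/-- the point at infinity of the piece of a tree -/
def pt {n : ℕ} (T : X n) : Pieces n :=
  ⟨(T, OnePoint.infty), fun _ _ z h => absurd h (OnePoint.infty_ne_coe z)⟩

lemma sat_subset_iff {n : ℕ} {A B : Set (X n)} (hB : Inv B) : sat A ⊆ sat B ↔ A ⊆ B := by
  constructor
  · intro h T hT
    exact (mk_mem_sat hB (pt T)).1 (h ⟨pt T, hT, rfl⟩)
  · intro h
    exact Set.image_mono fun p hp => h hp

lemma continuous_mk {n : ℕ} : Continuous (Quot.mk Glue : Pieces n → M n) :=
  continuous_coinduced_rng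

lemma continuous_fst_pieces {n : ℕ} : Continuous (fun p : Pieces n => p.1.1) :=
  continuous_fst.comp continuous_induced_dom

lemma isClosed_sat {n : ℕ} {A : Set (X n)} (hA : Inv A) (hc : IsClosed A) : IsClosed (sat A) := by
  rw [isClosed_coinduced]
  have : (Quot.mk Glue : Pieces n → M n) ⁻¹' sat A = (fun p : Pieces n => p.1.1) ⁻¹' A := by
    ext p; exact mk_mem_sat hA p
  exact this ▸ hc.preimage continuous_fst_pieces

lemma closure_sat {n : ℕ} {A : Set (X n)} (hA : Inv A) : closure (sat A) = sat (closure A) := by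
  apply Set.Subset.antisymm
  · exact closure_minimal ((sat_subset_iff hA.closure).2 subset_closure)
      (isClosed_sat hA.closure isClosed_closure)
  · rintro _ ⟨p, hp, rfl⟩
    refine image_closure_subset_closure_image continuous_mk ⟨p, ?_, rfl⟩
    simp only [Set.mem_ofPred_eq] at hp
    rw [mem_closure_iff_ultrafilter] at hp ⊢
    obtain ⟨U, hU, hle⟩ := hp
    have h1 := tendsto_X_iff.1 (show Tendsto id (U : Filter (X n)) (𝓝 p.1.1) from hle)
    have h2 : ∀ᶠ S in (U : Filter (X n)), ∀ x : Fin n × Bool, FreeGroup.mk [x] ∈ S.1 →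
        ∀ z : ℂ, p.1.2 = (z : OnePoint ℂ) → 1 ≤ dist z (centre x) := by
      have := eventually_all.2 fun x : Fin n × Bool => h1 (FreeGroup.mk [x])
      filter_upwards [this] with S hS x hx
      exact p.2 x ((hS x).1 hx)
    classical
    let f : X n → Pieces n := fun S =>
      if h : (∀ x : Fin n × Bool, FreeGroup.mk [x] ∈ S.1 →
        ∀ z : ℂ, p.1.2 = (z : OnePoint ℂ) → 1 ≤ dist z (centre x)) then ⟨(S, p.1.2), h⟩ else p
    have h3 : ∀ᶠ S in (U : Filter (X n)), (f S).1 = (S, p.1.2) := by
      filter_upwards [h2] with S hS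
      simp only [f, dif_pos hS]
    refine ⟨U.map f, ?_, ?_⟩
    · rw [Ultrafilter.mem_map]
      filter_upwards [hU, h3] with S hS h4
      simp only [Set.mem_preimage, Set.mem_ofPred_eq, h4]
      exact hS
    · change Tendsto f (U : Filter (X n)) (𝓝 p)
      rw [nhds_induced, tendsto_comap_iff]
      refine Tendsto.congr' (f₁ := fun S => (S, p.1.2)) (h3.mono fun S hS => hS.symm) ?_
      exact Tendsto.prodMk_nhds hle tendsto_const_nhds

lemma leaf_eq_of_subset {n : ℕ} {T T' : X n} (h : leaf T ⊆ leaf T') : leaf T = leaf T' := by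
  refine Set.Subset.antisymm h ?_
  rw [leaf_eq, leaf_eq, sat_subset_iff (orb_inv _)] at *
  have h1 : Rel T' T := h (Rel.refl T)
  exact fun S hS => Rel.trans h1.symm hS

lemma nonDense_eq_empty_of_zero {n : ℕ} {A : Set (M n)} (h : AtLevel 0 A) : nonDense A = ∅ := by
  rw [AtLevel] at h
  ext L
  simp only [Set.mem_empty_iff_false, iff_false]
  rintro ⟨⟨T, rfl⟩, h1, h2⟩
  rcases h with ⟨⟨T', rfl⟩, _⟩ | h
  · exact h2 (leaf_eq_of_subset h1 ▸ subset_closure)
  · exact h2 (h _ ⟨T, rfl⟩ h1)

lemma atLevel_unique {n : ℕ} : ∀ (k j : ℕ) (A : Set (M n)), AtLevel k A → AtLevel j A → k = j := by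
  have key : ∀ N k j : ℕ, k + j ≤ N → ∀ A : Set (M n), AtLevel k A → AtLevel j A → k = j := by
    intro N
    induction N with
    | zero => intro k j h A _ _; omega
    | succ N ih =>
      intro k j h A hk hj
      cases k with
      | zero =>
        cases j with
        | zero => rfl
        | succ j =>
          rw [AtLevel] at hj
          obtain ⟨L, hL, _⟩ := hj.2.2
          rw [nonDense_eq_empty_of_zero hk] at hL
          exact hL.elim
      | succ k =>
        cases j with
        | zero =>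
          rw [AtLevel] at hk
          obtain ⟨L, hL, _⟩ := hk.2.2
          rw [nonDense_eq_empty_of_zero hj] at hL
          exact hL.elim
        | succ j =>
          rw [AtLevel] at hk hj
          obtain ⟨L, hL, h1⟩ := hk.2.2
          obtain ⟨L', hL', h1'⟩ := hj.2.2
          obtain ⟨a, ha⟩ := hj.2.1 L hL
          obtain ⟨b, hb⟩ := hk.2.1 L' hL'
          have h2 := a.2
          have h3 := b.2
          have h4 := ih k a (by omega) _ h1 ha
          have h5 := ih j b (by omega) _ h1' hb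
          omega
  exact fun k j => key _ k j le_rfl

/-- A chain of trees whose orbit closures are the initial unions of orbits has the levels. -/
lemma atLevel_of_chain {n : ℕ} (T : ℕ → X n)
    (hcl : ∀ k, closure (orb (T k)) = {S | ∃ j ≤ k, Rel (T j) S})
    (hne : ∀ j k, Rel (T j) (T k) → k ≤ j) (k : ℕ) : AtLevel k (closure (leaf (T k))) := by
  have hW : ∀ k, Inv {S | ∃ j ≤ k, Rel (T j) S} := fun k => hcl k ▸ (orb_inv _).closure
  have hleaf : ∀ k, closure (leaf (T k)) = sat {S | ∃ j ≤ k, Rel (T j) S} := by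
    intro k; rw [leaf_eq, closure_sat (orb_inv _), hcl]
  have hrel : ∀ {S S' : X n}, Rel S S' → leaf S = leaf S' := by
    intro S S' h
    apply leaf_eq_of_subset
    rw [leaf_eq, leaf_eq, sat_subset_iff (orb_inv _)]
    exact fun R hR => Rel.trans h.symm hR
  have hnd : ∀ k L, L ∈ nonDense (closure (leaf (T k))) ↔ ∃ j < k, L = leaf (T j) := by
    intro k L
    constructor
    · rintro ⟨⟨S, rfl⟩, h1, h2⟩
      rw [hleaf, leaf_eq, sat_subset_iff (hW k)] at h1
      obtain ⟨j, hj, hS⟩ := h1 (Rel.refl S)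
      refine ⟨j, lt_of_le_of_ne hj ?_, (hrel hS).symm⟩
      rintro rfl
      exact h2 (by rw [hrel hS])
    · rintro ⟨j, hj, rfl⟩
      refine ⟨⟨_, rfl⟩, ?_, ?_⟩
      · rw [hleaf, leaf_eq, sat_subset_iff (hW k)]
        exact fun S hS => ⟨j, hj.le, hS⟩
      · rw [hleaf, hleaf, sat_subset_iff (hW j)]
        intro h
        obtain ⟨i, hi, h'⟩ := h ⟨k, le_rfl, Rel.refl _⟩
        have := hne _ _ h'
        omega
  induction k using Nat.strong_induction_on with
  | _ k ih =>
    cases k with
    | zero =>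
      rw [AtLevel]
      right
      intro L hL h1
      by_contra h2
      obtain ⟨j, hj, _⟩ := (hnd 0 L).1 ⟨hL, h1, h2⟩
      omega
    | succ k =>
      rw [AtLevel]
      refine ⟨?_, ?_, leaf (T k), (hnd _ _).2 ⟨k, Nat.lt_succ_self k, rfl⟩, ih k (Nat.lt_succ_self k)⟩
      · have h1 : closure (⋃₀ nonDense (closure (leaf (T (k + 1))))) ⊆ closure (leaf (T k)) := by
          refine closure_minimal ?_ isClosed_closure
          rintro x ⟨L, hL, hx⟩
          obtain ⟨j, hj, rfl⟩ := (hnd _ _).1 hL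
          have : leaf (T j) ⊆ closure (leaf (T k)) := by
            rw [hleaf, leaf_eq, sat_subset_iff (hW k)]
            exact fun S hS => ⟨j, by omega, hS⟩
          exact this hx
        refine lt_of_le_of_lt h1 ?_
        obtain ⟨_, h2, h3⟩ := (hnd (k + 1) _).2 ⟨k, Nat.lt_succ_self k, rfl⟩
        exact ⟨closure_minimal h2 isClosed_closure, h3⟩
      · intro L hL
        obtain ⟨j, hj, rfl⟩ := (hnd _ _).1 hL
        exact ⟨⟨j, hj⟩, ih j hj⟩

end Pool.Agent.MP_598c06_an
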