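import Pool.Agent.MP_598c06_an.Defs
import Pool.Agent.MP_598c06_an.Digits

noncomputable section

namespace Pool.Agent.MP_598c06_an

open Filter Topology FreeGroup

/-- the Cayley graph -/
abbrev cay (n : ℕ) : SimpleGraph (FreeGroup (Fin n)) :=
  SimpleGraph.mulCayley (Set.range (FreeGroup.of : Fin n → FreeGroup (Fin n)))

lemma last_step {n : ℕ} (i j : Fin n) (u : FreeGroup (Fin n)) (h : ¬ (u = 1 ∧ j = i)) :
    ((u * of j)⁻¹.toWord.getLast? = some (i, false)) ↔ (u⁻¹.toWord.getLast? = some (i, false)) := by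
  have h1 : (u * of j)⁻¹.toWord = reduce ((j, false) :: u⁻¹.toWord) := by
    rw [mul_inv_rev, toWord_mul, toWord_inv (of j), toWord_of]
    simp [invRev]
  rw [h1, reduce.cons, reduce_toWord]
  cases hL : u⁻¹.toWord with
  | nil =>
    have hu : u = 1 := by simpa using toWord_eq_nil_iff.1 hL
    have hj : j ≠ i := fun hh => h ⟨hu, hh⟩
    simp [hj]
  | cons hd tl =>
    dsimp only
    split_ifs with hc
    · cases tl with
      | nil =>
        obtain ⟨y, c⟩ := hd
        have : c = true := by simpa using hc.2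
        simp [this]
      | cons a tl => simp [List.getLast?_cons_cons]
    · simp [List.getLast?_cons_cons]

lemma cay_acyclic (n : ℕ) : (cay n).IsAcyclic := by
  rw [SimpleGraph.isAcyclic_iff_forall_adj_isBridge]
  have key : ∀ (g : FreeGroup (Fin n)) (i : Fin n), (cay n).IsBridge s(g, g * of i) := by
    intro g i
    rw [SimpleGraph.isBridge_iff]
    rintro ⟨w⟩
    let c : FreeGroup (Fin n) → Prop := fun v => (g⁻¹ * v)⁻¹.toWord.getLast? = some (i, false)
    have step : ∀ u j, s(u, u * of j) ≠ s(g, g * of i) → (c (u * of j) ↔ c u) := by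
      intro u j hne
      have := last_step i j (g⁻¹ * u) (by
        rintro ⟨h1, h2⟩
        apply hne
        rw [inv_mul_eq_one] at h1
        rw [h1, h2])
      simpa only [c, mul_assoc] using this
    have inv : ∀ {u v} (_ : ((cay n).deleteEdges {s(g, g * of i)}).Walk u v), (c u ↔ c v) := by
      intro u v p
      induction p with
      | nil => rfl
      | cons hadj _ ih =>
        rw [← ih]
        rw [SimpleGraph.deleteEdges_adj, SimpleGraph.mulCayley_adj'] at hadj
        obtain ⟨⟨_, _, ⟨j, rfl⟩, h | h⟩, hne⟩ := hadj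
        · subst h
          exact (step _ j (by simpa only [Set.mem_singleton_iff] using hne)).symm
        · subst h
          refine step _ j ?_
          rw [Sym2.eq_swap]
          simpa only [Set.mem_singleton_iff] using hne
    have h1 : ¬ c g := by simp [c]
    have h2 : c (g * of i) := by
      simp only [c, inv_mul_cancel_left]
      rw [toWord_inv, toWord_of]; simp [invRev]
    exact h1 ((inv w).2 h2)
  intro v w hadj
  rw [SimpleGraph.mulCayley_adj'] at hadj
  obtain ⟨_, _, ⟨j, rfl⟩, h | h⟩ := hadj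
  · subst h; exact key _ _
  · subst h; rw [Sym2.eq_swap]; exact key _ _

lemma tendsto_X_iff {n : ℕ} {ι : Type*} {l : Filter ι} {f : ι → X n} {T : X n} :
    Tendsto f l (𝓝 T) ↔ ∀ g, ∀ᶠ i in l, (g ∈ (f i).1 ↔ g ∈ T.1) := by
  rw [TopologicalSpace.tendsto_nhds_generateFrom_iff]
  constructor
  · intro h g
    have := h _ ⟨T, g.norm, rfl⟩ (fun _ _ => Iff.rfl)
    filter_upwards [this] with i hi
    exact hi g le_rfl
  · rintro h _ ⟨S, r, rfl⟩ hT
    have hfin : {g : FreeGroup (Fin n) | g.norm ≤ r}.Finite := by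
      have : {g : FreeGroup (Fin n) | g.norm ≤ r} ⊆ FreeGroup.mk '' {L | L.length ≤ r} :=
        fun g hg => ⟨g.toWord, hg, mk_toWord⟩
      exact ((List.finite_length_le _ r).image _).subset this
    have := (eventually_all_finite hfin).2 (fun g _ => h g)
    filter_upwards [this] with i hi g hg
    exact (hi g hg).trans (hT g hg)

lemma Reroot.mem_iff {n : ℕ} {g : FreeGroup (Fin n)} {T T' : X n} (h : Reroot g T T')
    (x : FreeGroup (Fin n)) : x ∈ T'.1 ↔ g * x ∈ T.1 := by
  rw [h.2]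
  constructor
  · rintro ⟨y, hy, rfl⟩
    simpa using hy
  · intro hx
    exact ⟨g * x, hx, by simp⟩

lemma reroot_of_iff {n : ℕ} {g : FreeGroup (Fin n)} {T T' : X n}
    (h : ∀ x, x ∈ T'.1 ↔ g * x ∈ T.1) : Reroot g T T' := by
  refine ⟨by simpa using (h 1).1 T'.2.2.1, ?_⟩
  ext x
  rw [h]
  constructor
  · intro hx
    exact ⟨g * x, hx, by simp⟩
  · rintro ⟨y, hy, rfl⟩
    simpa using hy

/-- the orbit relation -/
def Rel {n : ℕ} (T T' : X n) : Prop := ∃ g, Reroot g T T'

lemma Rel.refl {n : ℕ} (T : X n) : Rel T T := ⟨1, reroot_of_iff (by simp)⟩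

lemma Rel.symm {n : ℕ} {T T' : X n} : Rel T T' → Rel T' T := by
  rintro ⟨g, h⟩
  exact ⟨g⁻¹, reroot_of_iff fun x => by rw [h.mem_iff]; simp⟩

lemma Rel.trans {n : ℕ} {T T' T'' : X n} : Rel T T' → Rel T' T'' → Rel T T'' := by
  rintro ⟨g, h⟩ ⟨g', h'⟩
  exact ⟨g * g', reroot_of_iff fun x => by rw [h'.mem_iff, h.mem_iff, mul_assoc]⟩

/-- re-rooting at a vertex -/
def rr {n : ℕ} (T : X n) (g : FreeGroup (Fin n)) (hg : g ∈ T.1) : X n :=
  ⟨{x | g * x ∈ T.1}, by
    refine ⟨?_, by simpa using hg, ?_⟩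
    · exact T.2.1.preimage (f := fun x => g * x) (fun x _ => ⟨g⁻¹ * x, by simp⟩)
    · refine (SimpleGraph.Iso.isTree_iff (G' := (cay n).induce T.1) ?_).2 T.2.2.2
      refine ⟨(Equiv.mulLeft g).subtypeEquiv (fun _ => Iff.rfl), ?_⟩
      intro a b
      simp [SimpleGraph.mulCayley_adj_mul_iff_right]⟩

lemma reroot_rr {n : ℕ} (T : X n) (g : FreeGroup (Fin n)) (hg : g ∈ T.1) :
    Reroot g T (rr T g hg) := reroot_of_iff fun _ => Iff.rfl

/-- orbit-invariant subsets of the transversal -/
def Inv {n : ℕ} (A : Set (X n)) : Prop := ∀ T T', T ∈ A → Rel T T' → T' ∈ A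

lemma Inv.closure {n : ℕ} {A : Set (X n)} (hA : Inv A) : Inv (closure A) := by
  rintro T T' hT ⟨g, hg⟩
  rw [mem_closure_iff_ultrafilter] at hT ⊢
  obtain ⟨U, hU, hle⟩ := hT
  have h1 := tendsto_X_iff.1 (show Tendsto id (U : Filter (X n)) (𝓝 T) from hle)
  classical
  let f : X n → X n := fun S => if h : g ∈ S.1 then rr S g h else S
  refine ⟨U.map f, ?_, ?_⟩
  · rw [Ultrafilter.mem_map]
    filter_upwards [hU] with S hS
    simp only [Set.mem_preimage, f]
    split_ifs with h
    · exact hA _ _ hS ⟨g, reroot_rr S g h⟩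
    · exact hS
  · change Tendsto f (U : Filter (X n)) (𝓝 T')
    rw [tendsto_X_iff]
    intro x
    filter_upwards [h1 g, h1 (g * x)] with S h2 h3
    have h4 : g ∈ S.1 := h2.2 hg.1
    simp only [f, dif_pos h4]
    rw [hg.mem_iff]
    exact h3

end Pool.Agent.MP_598c06_an
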